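import Pool.Agent.Helper793.MS.Push

set_option autoImplicit false

open Cardinal Monoid

universe u

namespace Pool.Agent.Results.MP_aade38_al.SmallBase

/-- The core of the amalgamated subgroup `C`: the elements of `C` all of whose conjugates in the
amalgamated free product lie in `C` (the largest subgroup of `C` that is normal in the amalgam). -/
def core {G : Bool → Type u} [∀ i, Group (G i)] {C : Type u} [Group C] (φ : ∀ i, C →* G i) :
    Subgroup C :=
  ((PushoutI.base φ).range.normalCore).comap (PushoutI.base φ)

/-- Let `A = G true`, `B = G false` be groups with a common subgroup `C`, proper in both. If one of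
the two factors is finitely generated over `C`, or if `|C : core(C)| ≤ max(|A : C|, |B : C|)`, then
`A *_C B` has a maximal subgroup. -/
theorem result {G : Bool → Type u} [∀ i, Group (G i)] {C : Type u} [Group C] (φ : ∀ i, C →* G i)
    (hφ : ∀ i, Function.Injective (φ i)) (hs : ∀ i, ¬ Function.Surjective (φ i))
    (h : (∃ i, ∃ F : Finset (G i), (φ i).range ⊔ Subgroup.closure (F : Set (G i)) = ⊤) ∨
      #(C ⧸ core φ) ≤ max #(G true ⧸ (φ true).range) #(G false ⧸ (φ false).range)) :
    ∃ M : Subgroup (PushoutI φ), IsCoatom M := by
  rcases h with ⟨i, F, hF⟩ | h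
  · exact Pool.Agent.Helper793.MS.push_fg hφ hs i F hF
  · rcases le_max_iff.1 h with h | h
    · exact Pool.Agent.Helper793.MS.push_card hφ hs true h
    · exact Pool.Agent.Helper793.MS.push_card hφ hs false h

end Pool.Agent.Results.MP_aade38_al.SmallBase
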